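import Pool.Agent.helper28.NS.Ord

/-!
# Coded trees and coded systems give the tree property and refute the narrow system property
-/

namespace Pool.Agent.helper28.NSI

open Pool.Agent.helper31.ZF Pool.Agent.helper75.NS

universe u

variable {M : Type u} [ZFModel M]

/-! ### heights -/

theorem iso_inj {L a f y z : M} (ha : IsOrd a)
    (h : ∀ y, y ∈ a → ∀ z, z ∈ a → (y ∈ z ↔ op (ap f y) (ap f z) ∈ L))
    (hy : y ∈ a) (hz : z ∈ a) (e : ap f y = ap f z) : y = z := by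
  rcases ord_tri y (ord_mem ha hy) z (ord_mem ha hz) with h1 | h1 | h1
  · have h2 := (h y hy z hz).1 h1
    rw [e] at h2
    exact absurd ((h z hz z hz).2 h2) (not_mem_self z)
  · exact h1
  · have h2 := (h z hz y hy).1 h1
    rw [e] at h2
    exact absurd ((h z hz z hz).2 h2) (not_mem_self z)

theorem ht_sub {T L t a b : M} (ha : IsHt T L t a) (hb : IsHt T L t b) : a ⊆ b := by
  obtain ⟨oa, f, hf, hf1, hf2⟩ := ha
  obtain ⟨ob, g, hg, hg1, hg2⟩ := hb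
  have key : ∀ z, IsOrd z → z ∈ a → z ∈ b ∧ ap f z = ap g z := by
    refine ord_ind (P := fun z => z ∈ a → z ∈ b ∧ ap f z = ap g z) ?_
    intro z oz ih hz
    have h1 : op (ap f z) t ∈ L := (hf1 _ (hf.2 z hz)).2 ⟨z, hz, rfl⟩
    obtain ⟨w, hw, hw'⟩ := (hg1 _ (hf.2 z hz)).1 h1
    have ow := ord_mem ob hw
    rcases ord_tri w ow z oz with h | h | h
    · obtain ⟨_, h3⟩ := ih w h (ord_tr oa hz h)
      have h4 := iso_inj oa hf2 (ord_tr oa hz h) hz (h3.trans hw')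
      exact absurd (h4 ▸ h) (not_mem_self z)
    · subst h
      exact ⟨hw, hw'.symm⟩
    · have hzb := ord_tr ob hw h
      have h3 : op (ap g z) t ∈ L := (hg1 _ (hg.2 z hzb)).2 ⟨z, hzb, rfl⟩
      obtain ⟨v, hv, hv'⟩ := (hf1 _ (hg.2 z hzb)).1 h3
      have h4 : op (ap f v) (ap f z) ∈ L := by
        rw [hv', ← hw']
        exact (hg2 z hzb w hw).1 h
      have h5 := (hf2 v hv z hz).2 h4
      obtain ⟨h6, h7⟩ := ih v h5 hv
      have h8 := iso_inj ob hg2 h6 hzb (h7.symm.trans hv')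
      exact absurd (h8 ▸ h5) (not_mem_self z)
  exact fun z hz => (key z (ord_mem oa hz) hz).1

theorem ht_unique {T L t a b : M} (ha : IsHt T L t a) (hb : IsHt T L t b) : a = b :=
  Sub.antisymm (ht_sub ha hb) (ht_sub hb ha)

/-- the predecessors of a node of height `c` -/
theorem ht_pred {T L t c f a : M} (hT : IsTree T L) (oc : IsOrd c) (hf : IsFn f c T)
    (hf1 : ∀ x, x ∈ T → (op x t ∈ L ↔ ∃ z, z ∈ c ∧ ap f z = x))
    (hf2 : ∀ y, y ∈ c → ∀ z, z ∈ c → (y ∈ z ↔ op (ap f y) (ap f z) ∈ L)) (ha : a ∈ c) :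
    IsHt T L (ap f a) a := by
  have hsub : ∀ x, x ∈ a → x ∈ c := fun x hx => ord_tr oc ha hx
  refine ⟨ord_mem oc ha, lam a fun x => ap f x, lam_fn fun x hx => hf.2 x (hsub x hx), ?_, ?_⟩
  · intro x hx
    constructor
    · intro h
      have h1 : op (ap f a) t ∈ L := (hf1 _ (hf.2 a ha)).2 ⟨a, ha, rfl⟩
      obtain ⟨z, hz, rfl⟩ := (hf1 x hx).1 (hT.2.2.1 _ _ _ h h1)
      have h2 := (hf2 z hz a ha).2 h
      exact ⟨z, h2, by rw [ap_lam h2]⟩
    · rintro ⟨z, hz, rfl⟩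
      rw [ap_lam hz]
      exact (hf2 z (hsub z hz) a ha).1 hz
  · intro y hy z hz
    rw [ap_lam hy, ap_lam hz]
    exact hf2 y (hsub y hy) z (hsub z hz)

/-- at every level below its height a node has exactly one predecessor, and they are ordered by
their heights -/
theorem ht_facts {T L t c : M} (hT : IsTree T L) (h : IsHt T L t c) :
    (∀ a, a ∈ c → ∃ x, x ∈ T ∧ op x t ∈ L ∧ IsHt T L x a) ∧
    (∀ x y a b, x ∈ T → y ∈ T → op x t ∈ L → op y t ∈ L → IsHt T L x a → IsHt T L y b →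
      (a ∈ b → op x y ∈ L) ∧ (a = b → x = y)) := by
  obtain ⟨oc, f, hf, hf1, hf2⟩ := h
  constructor
  · intro a ha
    exact ⟨ap f a, hf.2 a ha, (hf1 _ (hf.2 a ha)).2 ⟨a, ha, rfl⟩, ht_pred hT oc hf hf1 hf2 ha⟩
  · intro x y a b hx hy hxt hyt hxa hyb
    obtain ⟨z, hz, rfl⟩ := (hf1 x hx).1 hxt
    obtain ⟨w, hw, rfl⟩ := (hf1 y hy).1 hyt
    have e1 := ht_unique (ht_pred hT oc hf hf1 hf2 hz) hxa
    have e2 := ht_unique (ht_pred hT oc hf hf1 hf2 hw) hyb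
    subst e1 e2
    exact ⟨fun h => (hf2 z hz w hw).1 h, fun h => by rw [h]⟩

open Classical in
theorem tp_of_coded (hAC : AC M) {mu l : M} (hs : IsSingular mu) (hl : IsSuccCard mu l)
    (h : ∀ R : M, CTree mu l R → ∃ B, CBranch mu l R B) : TP l := by
  rintro T L ⟨hT, hlt, hne, hsm⟩
  have ol : IsOrd l := hl.2.1.1
  have omu : IsOrd mu := hl.1.1
  have hemp : emp ∈ mu := hs.2.1 _ emp_mem_om
  -- surjections onto the levels
  let S : M → M := fun a => sep (Fn mu T) fun g =>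
    (∀ i, i ∈ mu → IsHt T L (ap g i) a) ∧ ∀ t, t ∈ T → IsHt T L t a → ∃ i, i ∈ mu ∧ ap g i = t
  have iS : ∀ {n : ℕ} (F : (Fin n → M) → M) [Fp F], Fp (fun v => S (F v)) := fun F =>
    Fp.op1 (f := S) (by simp only [S]; infer_instance) F
  have memS : ∀ a g, g ∈ S a ↔ IsFn g mu T ∧ (∀ i, i ∈ mu → IsHt T L (ap g i) a) ∧
      ∀ t, t ∈ T → IsHt T L t a → ∃ i, i ∈ mu ∧ ap g i = t := by
    intro a g
    simp only [S]
    rw [mem_sep, mem_Fn]
  have hSne : ∀ a, a ∈ l → ∃ g, g ∈ S a := by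
    intro a ha
    obtain ⟨t0, ht0, ht0'⟩ := hne a ha
    obtain ⟨k, hk, f, hf⟩ := hsm a ha (sep T fun t => IsHt T L t a) (fun t => mem_sep)
    obtain ⟨g, hg⟩ := inj_mu hl hk
    let A : M := sep T fun t => IsHt T L t a
    have hA : ∀ t, t ∈ A ↔ t ∈ T ∧ IsHt T L t a := fun t => mem_sep
    let Q : M → M → Prop := fun i t => t ∈ A ∧ ap g (ap f t) = i
    have hQu : ∀ t, t ∈ A → (the fun t' => Q (ap g (ap f t)) t') = t := by
      intro t ht
      apply the_eq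
      · exact ⟨ht, rfl⟩
      · rintro t' ⟨h1, h2⟩
        exact hf.2 t' h1 t ht (hg.2 _ (hf.1.2 t' h1) _ (hf.1.2 t ht) h2)
    have hmem : ∀ t, t ∈ A → ap g (ap f t) ∈ mu := fun t ht => hg.1.2 _ (hf.1.2 t ht)
    have i1 : F1 (fun i : M => if (∃ t, t ∈ A ∧ ap g (ap f t) = i) then
        (the fun t' => t' ∈ A ∧ ap g (ap f t') = i) else t0) := inferInstance
    have hval : ∀ i, (if (∃ t, t ∈ A ∧ ap g (ap f t) = i) then
        (the fun t' => t' ∈ A ∧ ap g (ap f t') = i) else t0) ∈ A := by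
      intro i
      split_ifs with hi
      · obtain ⟨t, ht, rfl⟩ := hi
        have := hQu t ht
        simp only [Q] at this
        rw [this]
        exact ht
      · exact (hA t0).2 ⟨ht0, ht0'⟩
    refine ⟨lam mu fun i => if (∃ t, t ∈ A ∧ ap g (ap f t) = i) then
        (the fun t' => t' ∈ A ∧ ap g (ap f t') = i) else t0, (memS a _).2 ⟨lam_fn fun i _ =>
          ((hA _).1 (hval i)).1, fun i hi => ?_, fun t ht hta => ?_⟩⟩
    · rw [ap_lam hi]
      exact ((hA _).1 (hval i)).2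
    · have htA : t ∈ A := (hA t).2 ⟨ht, hta⟩
      refine ⟨ap g (ap f t), hmem t htA, ?_⟩
      rw [ap_lam (hmem t htA), if_pos ⟨t, htA, rfl⟩]
      exact hQu t htA
  obtain ⟨c, _, hc⟩ := hAC (img l fun a => S a) (by
    intro x hx
    obtain ⟨a, ha, rfl⟩ := mem_img.1 hx
    exact hSne a ha)
  let s : M → M → M := fun a i => ap (ap c (S a)) i
  have is : ∀ {n : ℕ} (F G : (Fin n → M) → M) [Fp F] [Fp G], Fp (fun v => s (F v) (G v)) :=
    fun F G => Fp.op2 (f := s) (by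
      simp only [s]
      have := iS (fun v : Fin 2 → M => v 0)
      infer_instance) F G
  have hsS : ∀ a, a ∈ l → ap c (S a) ∈ S a := fun a ha => hc _ (mem_img.2 ⟨a, ha, rfl⟩)
  have s_mem : ∀ a, a ∈ l → ∀ i, i ∈ mu → s a i ∈ T := fun a ha i hi =>
    ((memS a _).1 (hsS a ha)).1.2 i hi
  have s_ht : ∀ a, a ∈ l → ∀ i, i ∈ mu → IsHt T L (s a i) a := fun a ha i hi =>
    ((memS a _).1 (hsS a ha)).2.1 i hi
  have s_surj : ∀ a, a ∈ l → ∀ t, t ∈ T → IsHt T L t a → ∃ i, i ∈ mu ∧ s a i = t :=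
    fun a ha => ((memS a _).1 (hsS a ha)).2.2
  -- the coded tree
  let R : M := sep (prod (prod l mu) (prod l mu)) fun z => ∃ a i b k,
    z = op (op a i) (op b k) ∧ op (s a i) (s b k) ∈ L
  have memR : ∀ a i b k, op (op a i) (op b k) ∈ R ↔
      (a ∈ l ∧ i ∈ mu ∧ b ∈ l ∧ k ∈ mu) ∧ op (s a i) (s b k) ∈ L := by
    intro a i b k
    have i1 : D1 (fun z : M => ∃ a i b k, z = op (op a i) (op b k) ∧ op (s a i) (s b k) ∈ L) := by
      have j1 := is (fun v : Fin 5 → M => v 1) (fun v => v 2)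
      have j2 := is (fun v : Fin 5 → M => v 3) (fun v => v 4)
      have j3 : Dp (fun v : Fin 5 → M => v 0 = op (op (v 1) (v 2)) (op (v 3) (v 4)) ∧
        op (s (v 1) (v 2)) (s (v 3) (v 4)) ∈ L) := inferInstance
      exact instDpEx (h := instDpEx (h := instDpEx (h := instDpEx (h := j3))))
    simp only [R]
    rw [mem_sep]
    constructor
    · rintro ⟨h1, a', i', b', k', e, h2⟩
      simp only [op_inj] at e
      obtain ⟨⟨rfl, rfl⟩, rfl, rfl⟩ := e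
      simp only [mem_prod, op_inj] at h1
      obtain ⟨x, ⟨a1, ha1, i1, hi1, rfl⟩, y, ⟨b1, hb1, k1, hk1, rfl⟩, e1, e2⟩ := h1
      obtain ⟨rfl, rfl⟩ := op_inj.1 e1
      obtain ⟨rfl, rfl⟩ := op_inj.1 e2
      exact ⟨⟨ha1, hi1, hb1, hk1⟩, h2⟩
    · rintro ⟨⟨h1, h2, h3, h4⟩, h5⟩
      refine ⟨?_, a, i, b, k, rfl, h5⟩
      simp only [mem_prod]
      exact ⟨_, ⟨a, h1, i, h2, rfl⟩, _, ⟨b, h3, k, h4, rfl⟩, rfl⟩
  have hR : CTree mu l R := by
    constructor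
    · intro a b hab hb k hk
      obtain ⟨h1, _⟩ := ht_facts hT (s_ht b hb k hk)
      obtain ⟨x, hx, hx1, hx2⟩ := h1 a hab
      have ha := ord_tr ol hb hab
      obtain ⟨i, hi, rfl⟩ := s_surj a ha x hx hx2
      exact ⟨i, hi, (memR _ _ _ _).2 ⟨⟨ha, hi, hb, hk⟩, hx1⟩⟩
    · intro a b d hab hbd hd i j k hi hj hk h1 h2
      rw [memR] at h1 h2 ⊢
      have hb := ord_tr ol hd hbd
      have ha := ord_tr ol hb hab
      refine ⟨⟨ha, hi, hb, hj⟩, ?_⟩
      exact ((ht_facts hT (s_ht d hd k hk)).2 _ _ a b (s_mem a ha i hi) (s_mem b hb j hj)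
        h1.2 h2.2 (s_ht a ha i hi) (s_ht b hb j hj)).1 hab
    · intro a b d hab hbd hd i j k hi hj hk h1 h2
      rw [memR] at h1 h2 ⊢
      exact ⟨⟨h1.1.1, h1.1.2.1, h2.1.2.2.1, h2.1.2.2.2⟩, hT.2.2.1 _ _ _ h1.2 h2.2⟩
  obtain ⟨B, hB⟩ := h R hR
  let m : M → M := fun a => lst mu fun i => op a i ∈ B
  have hm : ∀ a, a ∈ l → m a ∈ mu ∧ op a (m a) ∈ B := fun a ha =>
    (lst_spec omu (P := fun i => op a i ∈ B) (hB.tot a ha)).1
  have im : F1 (fun a : M => s a (m a)) := by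
    have : F1 m := by simp only [m]; infer_instance
    exact is (fun v : Fin 1 → M => v 0) (fun v => m (v 0))
  have hlin : ∀ a, a ∈ l → ∀ b, b ∈ l → a ∈ b → op (s a (m a)) (s b (m b)) ∈ L := by
    intro a ha b hb hab
    have := hB.lt a b hab hb (m a) (m b) (hm a ha).1 (hm b hb).1 (hm a ha).2 (hm b hb).2
    exact ((memR _ _ _ _).1 this).2
  refine ⟨img l fun a => s a (m a), ?_, ?_, ?_⟩
  · intro x hx
    obtain ⟨a, ha, rfl⟩ := mem_img.1 hx
    exact s_mem a ha _ (hm a ha).1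
  · intro x hx y hy
    obtain ⟨a, ha, rfl⟩ := mem_img.1 hx
    obtain ⟨b, hb, rfl⟩ := mem_img.1 hy
    rcases ord_tri a (ord_mem ol ha) b (ord_mem ol hb) with h1 | h1 | h1
    · exact Or.inr (Or.inl (hlin a ha b hb h1))
    · exact Or.inl (by rw [h1])
    · exact Or.inr (Or.inr (hlin b hb a ha h1))
  · intro a ha
    exact ⟨_, mem_img.2 ⟨a, ha, rfl⟩, s_ht a ha _ (hm a ha).1⟩

theorem not_nsp_of_coded {mu l C : M} (hs : IsSingular mu) (hl : IsSuccCard mu l)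
    (h : CSys l C) : ¬ NSP l := by
  intro hN
  have ol : IsOrd l := hl.2.1.1
  have hml : mu ∈ l := hl.2.2.1
  have homu : (om : M) ∈ mu := om_mem_of_singular hs
  have homl : (om : M) ∈ l := ord_tr ol hml homu
  have hsub : (om : M) ⊆ l := ol.1 _ homl
  have hlim : ∀ x, x ∈ l → ∃ a, a ∈ l ∧ x ∈ a := fun x hx => card_limit hl.2.1 hsub hx
  let K : M := lam l fun _ => om
  have hKf : IsFD K l := lam_fd
  have hK : ∀ a, a ∈ l → ap K a = om := fun a ha => ap_lam ha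
  let R : M := sep (prod (prod l om) (prod l om)) fun z =>
    ∃ a b n, a ∈ b ∧ z = op (op a n) (op b n) ∧ z ∈ C
  have memR : ∀ z, z ∈ R ↔ ∃ a b n, a ∈ b ∧ b ∈ l ∧ n ∈ (om : M) ∧ z = op (op a n) (op b n) ∧
      z ∈ C := by
    intro z
    simp only [R]
    rw [mem_sep]
    constructor
    · rintro ⟨h1, a, b, n, hab, rfl, h2⟩
      simp only [mem_prod, op_inj] at h1
      obtain ⟨x, ⟨a1, ha1, i1, hi1, rfl⟩, y, ⟨b1, hb1, k1, hk1, rfl⟩, e1, e2⟩ := h1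
      obtain ⟨rfl, rfl⟩ := op_inj.1 e1
      obtain ⟨rfl, _⟩ := op_inj.1 e2
      exact ⟨_, _, _, hab, hb1, hi1, rfl, h2⟩
    · rintro ⟨a, b, n, hab, hb, hn, rfl, h2⟩
      refine ⟨?_, a, b, n, hab, rfl, h2⟩
      simp only [mem_prod]
      exact ⟨_, ⟨a, ord_tr ol hb hab, n, hn, rfl⟩, _, ⟨b, hb, n, hn, rfl⟩, rfl⟩
  have inX : ∀ a, a ∈ l → ∀ n, n ∈ (om : M) → InX l K (op a n) := fun a ha n hn =>
    ⟨a, ha, n, by rw [hK a ha]; exact hn, rfl⟩
  have hinj : IsInj (lam (sg R) fun _ => emp) (sg R) (om : M) := by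
    refine ⟨lam_fn fun _ _ => emp_mem_om, fun x hx y hy _ => ?_⟩
    rw [mem_sg.1 hx, mem_sg.1 hy]
  have hrel : IsSysRel l K R := by
    refine ⟨?_, ?_, ?_, ?_⟩
    · intro z hz
      obtain ⟨a, b, n, hab, hb, hn, rfl, _⟩ := (memR z).1 hz
      exact ⟨_, _, inX a (ord_tr ol hb hab) n hn, inX b hb n hn, rfl⟩
    · intro x y z h1 h2
      obtain ⟨a, b, n, hab, hb, hn, e1, h1'⟩ := (memR _).1 h1
      obtain ⟨b', d, n', hbd, hd, hn', e2, h2'⟩ := (memR _).1 h2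
      obtain ⟨rfl, rfl⟩ := op_inj.1 e1
      obtain ⟨e3, rfl⟩ := op_inj.1 e2
      obtain ⟨rfl, rfl⟩ := op_inj.1 e3
      exact (memR _).2 ⟨a, d, n, ord_tr (ord_mem ol hd) hbd hab, hd, hn, rfl,
        h.trans a b d hab hbd hd n hn h1' h2'⟩
    · intro x y z h1 h2
      obtain ⟨a, d, n, had, hd, hn, e1, h1'⟩ := (memR _).1 h1
      obtain ⟨b, d', n', hbd, hd', hn', e2, h2'⟩ := (memR _).1 h2
      obtain ⟨rfl, rfl⟩ := op_inj.1 e1
      obtain ⟨rfl, e3⟩ := op_inj.1 e2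
      obtain ⟨rfl, rfl⟩ := op_inj.1 e3
      have oa := ord_mem (ord_mem ol hd) had
      have ob := ord_mem (ord_mem ol hd) hbd
      rcases ord_tri a oa b ob with h3 | h3 | h3
      · exact Or.inr (Or.inl ((memR _).2 ⟨a, b, n, h3, ord_tr ol hd hbd, hn, rfl,
          h.like a b d h3 hbd hd n hn h1' h2'⟩))
      · exact Or.inl (by rw [h3])
      · exact Or.inr (Or.inr ((memR _).2 ⟨b, a, n, h3, ord_tr ol hd had, hn, rfl,
          h.like b a d h3 had hd n hn h2' h1'⟩))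
    · intro a0 b0 a1 b1 h1
      obtain ⟨a, b, n, hab, hb, hn, e1, _⟩ := (memR _).1 h1
      obtain ⟨e2, e3⟩ := op_inj.1 e1
      obtain ⟨rfl, rfl⟩ := op_inj.1 e2
      obtain ⟨rfl, _⟩ := op_inj.1 e3
      exact hab
  have hsys : IsSystem l l K (sg R) := by
    refine ⟨⟨Sub.refl _, hlim, hKf, fun a ha => ?_⟩, ⟨⟨R, by simp⟩, ⟨om, homl, _, hinj⟩, ?_⟩, ?_⟩
    · rw [hK a ha]
      exact ⟨card_om, emp_mem_om, homl⟩
    · intro R' hR'
      rw [mem_sg.1 hR']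
      exact hrel
    · intro a0 h0 a1 h1 h01
      obtain ⟨n, hn, h2⟩ := h.tot a0 a1 h01 h1
      refine ⟨n, by rw [hK a0 h0]; exact hn, n, by rw [hK a1 h1]; exact hn, R, by simp, ?_⟩
      exact (memR _).2 ⟨a0, a1, n, h01, h1, hn, rfl, h2⟩
  have hnar : IsNarrow l l K (sg R) := by
    refine ⟨om, mu, card_om, hl.1, homu, hml, fun a ha => ?_, _, hinj⟩
    rw [hK a ha]
    exact Sub.refl _
  obtain ⟨R', hR', B, hB1, hB2, hB3⟩ := hN l K (sg R) hsys hnar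
  rw [mem_sg.1 hR'] at hB2
  obtain ⟨a0, n, h0, _⟩ := hB3 om homl
  have hn : n ∈ (om : M) := by
    obtain ⟨a, ha, b, hb, e⟩ := hB1 _ h0
    rw [hK a ha] at hb
    rw [(op_inj.1 e).2]
    exact hb
  have hsnd : ∀ a k, op a k ∈ B → k = n := by
    intro a k hak
    rcases hB2 _ h0 _ hak with h1 | h1 | h1
    · exact (op_inj.1 h1).2.symm
    · obtain ⟨x, y, m, _, _, _, e, _⟩ := (memR _).1 h1
      obtain ⟨e1, e2⟩ := op_inj.1 e
      rw [(op_inj.1 e1).2, (op_inj.1 e2).2]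
    · obtain ⟨x, y, m, _, _, _, e, _⟩ := (memR _).1 h1
      obtain ⟨e1, e2⟩ := op_inj.1 e
      rw [(op_inj.1 e1).2, (op_inj.1 e2).2]
  refine h.nobr n hn (sep l fun a => op a n ∈ B) ?_ ?_
  · intro x hx
    obtain ⟨a, k, hak, hxa⟩ := hB3 x hx
    have hk := hsnd a k hak
    subst hk
    have hal : a ∈ l := by
      obtain ⟨a', ha', b, hb, e⟩ := hB1 _ hak
      obtain ⟨rfl, rfl⟩ := op_inj.1 e
      exact ha'
    exact ⟨a, mem_sep.2 ⟨hal, hak⟩, hxa, hal⟩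
  · intro a b hab hb ha' hb'
    rw [mem_sep] at ha' hb'
    rcases hB2 _ ha'.2 _ hb'.2 with h1 | h1 | h1
    · exact absurd ((op_inj.1 h1).1 ▸ hab) (not_mem_self a)
    · obtain ⟨_, _, _, _, _, _, _, h2⟩ := (memR _).1 h1
      exact h2
    · obtain ⟨x, y, m, hxy, _, _, e, _⟩ := (memR _).1 h1
      obtain ⟨e1, e2⟩ := op_inj.1 e
      rw [← (op_inj.1 e1).1, ← (op_inj.1 e2).1] at hxy
      exact absurd hxy (not_mem_cycle hab)

end Pool.Agent.helper28.NSI
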