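import Pool.Agent.helper75.NS.Coded
import Pool.Agent.helper31.ZFFin

/-!
# Ordinals and cardinals in a model of ZF
-/

namespace Pool.Agent.helper28.NSI

open Pool.Agent.helper31.ZF Pool.Agent.helper75.NS

universe u

variable {M : Type u} [ZFModel M]

theorem Dp.subst4 {n : ℕ} {R : M → M → M → M → Prop}
    (hR : Dp (fun v : Fin 4 → M => R (v 0) (v 1) (v 2) (v 3)))
    (F G H K : (Fin n → M) → M) [h : Fp F] [h' : Fp G] [h'' : Fp H] [h''' : Fp K] :
    Dp (fun v => R (F v) (G v) (H v) (K v)) :=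
  ⟨D.subst4 hR.out h.out h'.out h''.out h'''.out⟩

instance instDpIsTransSet {n : ℕ} {F : (Fin n → M) → M} [Fp F] :
    Dp (fun v => IsTransSet (F v)) := Dp.subst1 (by unfold IsTransSet; infer_instance) F

instance instDpIsOrd {n : ℕ} {F : (Fin n → M) → M} [Fp F] :
    Dp (fun v => IsOrd (F v)) := Dp.subst1 (by unfold IsOrd; infer_instance) F

instance instDpIsHt {n : ℕ} {F G H K : (Fin n → M) → M} [Fp F] [Fp G] [Fp H] [Fp K] :
    Dp (fun v => IsHt (F v) (G v) (H v) (K v)) :=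
  Dp.subst4 (by unfold IsHt; infer_instance) F G H K

theorem ord_mem {x y : M} (h : IsOrd x) (hy : y ∈ x) : IsOrd y :=
  ⟨h.2 y hy, fun z hz => h.2 z (h.1 y hy z hz)⟩

theorem ord_tr {x y z : M} (h : IsOrd x) (hy : y ∈ x) (hz : z ∈ y) : z ∈ x := h.1 y hy z hz

theorem ord_suc {x : M} (h : IsOrd x) : IsOrd (suc x) := by
  constructor
  · intro y hy z hz
    rcases mem_suc.1 hy with rfl | hy
    · exact mem_suc.2 (Or.inr hz)
    · exact mem_suc.2 (Or.inr (ord_tr h hy hz))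
  · intro y hy
    rcases mem_suc.1 hy with rfl | hy
    · exact h.1
    · exact h.2 y hy

theorem ord_ind {P : M → Prop} [D1 P] (h : ∀ x, IsOrd x → (∀ y, y ∈ x → P y) → P x) :
    ∀ x, IsOrd x → P x := by
  intro x hx
  by_contra hc
  obtain ⟨y, hy, hy'⟩ := foundation (x := sep (suc x) fun z => ¬ P z)
    ⟨x, mem_sep.2 ⟨by simp, hc⟩⟩
  rw [mem_sep] at hy
  have hs := ord_suc hx
  refine hy.2 (h y (ord_mem hs hy.1) fun z hz => ?_)
  by_contra hz'
  exact hy' z hz (mem_sep.2 ⟨ord_tr hs hy.1 hz, hz'⟩)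

theorem ord_tri : ∀ x : M, IsOrd x → ∀ y, IsOrd y → x ∈ y ∨ x = y ∨ y ∈ x := by
  refine ord_ind (P := fun x => ∀ y, IsOrd y → x ∈ y ∨ x = y ∨ y ∈ x) ?_
  intro x hx ihx
  refine ord_ind (P := fun y => x ∈ y ∨ x = y ∨ y ∈ x) ?_
  intro y hy ihy
  by_cases h1 : ∃ x', x' ∈ x ∧ x' ∉ y
  · obtain ⟨x', h1, h2⟩ := h1
    rcases ihx x' h1 y hy with h | h | h
    · exact absurd h h2
    · exact Or.inr (Or.inr (h ▸ h1))
    · exact Or.inr (Or.inr (ord_tr hx h1 h))
  · by_cases h2 : ∃ y', y' ∈ y ∧ y' ∉ x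
    · obtain ⟨y', h2, h3⟩ := h2
      rcases ihy y' h2 with h | h | h
      · exact Or.inl (ord_tr hy h2 h)
      · exact Or.inl (h ▸ h2)
      · exact absurd h h3
    · push Not at h1 h2
      exact Or.inr (Or.inl (Sub.antisymm h1 h2))

/-- The least element of `t` with property `P`. -/
noncomputable def lst (t : M) (P : M → Prop) : M :=
  the fun z => (z ∈ t ∧ P z) ∧ ∀ w : M, w ∈ z → ¬ P w

theorem lst_spec {t : M} (ht : IsOrd t) {P : M → Prop} [D1 P] (h : ∃ z, z ∈ t ∧ P z) :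
    (lst t P ∈ t ∧ P (lst t P)) ∧ ∀ w, w ∈ lst t P → ¬ P w := by
  refine the_spec (P := fun z => (z ∈ t ∧ P z) ∧ ∀ w : M, w ∈ z → ¬ P w) ?_
  obtain ⟨z, hz, hP⟩ := h
  obtain ⟨y, hy, hy'⟩ := foundation (x := sep t P) ⟨z, mem_sep.2 ⟨hz, hP⟩⟩
  rw [mem_sep] at hy
  have hy2 : ∀ w, w ∈ y → ¬ P w := fun w hw hp => hy' w hw (mem_sep.2 ⟨ord_tr ht hy.1 hw, hp⟩)
  refine ⟨y, ⟨hy, hy2⟩, ?_⟩
  rintro v ⟨⟨hv, hPv⟩, hv'⟩
  rcases ord_tri v (ord_mem ht hv) y (ord_mem ht hy.1) with h | h | h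
  · exact absurd hPv (hy2 v h)
  · exact h
  · exact absurd hy.2 (hv' y h)

instance instFpLst {n : ℕ} {T : (Fin n → M) → M} {P : (Fin n → M) → M → Prop} [hT : Fp T]
    [h : Dp (fun w : Fin (n + 1) → M => P (fun i => w i.castSucc) (w (Fin.last n)))] :
    Fp (fun v => lst (T v) (fun x => P v x)) := by
  unfold lst
  have h2 : Dp (fun w : Fin (n + 1 + 1) → M =>
      P (fun i => w i.castSucc.castSucc) (w (Fin.last (n + 1)))) := by
    have := h.reindex (push (fun i : Fin n => i.castSucc.castSucc) (Fin.last (n + 1)))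
    refine this.congr fun v => ?_
    simp
  have h3 : Fp (fun w : Fin (n + 1) → M => T (fun i => w i.castSucc)) := hT.weaken
  exact instFpThe (P := fun v n => (n ∈ T v ∧ P v n) ∧ ∀ m : M, m ∈ n → ¬ P v m)
    (h := instDpAnd (h := instDpAnd (h := instDpMem (h' := h3)) (h' := h))
    (h' := instDpAll (P := fun (w : Fin (n + 1) → M) m => m ∈ w (Fin.last n) →
      ¬ P (fun i => w i.castSucc) m) (h := instDpImp (h' := instDpNot (h := h2)))))

/-- covering by ordinals implies choice -/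
theorem ac_of_cover (h : ∀ X : M, ∃ t f, IsOrd t ∧ IsFD f t ∧ ∀ x, x ∈ X → ∃ z, z ∈ t ∧ ap f z = x) :
    AC M := by
  intro X hX
  obtain ⟨t, f, ht, hf, hc⟩ := h (sUn X)
  refine ⟨lam X fun x => ap f (lst t fun z => ap f z ∈ x), lam_fd, fun x hx => ?_⟩
  rw [ap_lam hx]
  obtain ⟨y, hy⟩ := hX x hx
  obtain ⟨z, hz, e⟩ := hc y (mem_sUn.2 ⟨x, hx, hy⟩)
  exact (lst_spec ht (P := fun z => ap f z ∈ x) ⟨z, hz, by rw [e]; exact hy⟩).1.2

/-! ### cardinals -/

theorem exists_card {x : M} (hx : IsOrd x) : ∃ k, IsCard k ∧ (k ∈ x ∨ k = x) ∧ Eqn k x := by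
  have h := lst_spec (ord_suc hx) (P := fun z => Eqn z x) ⟨x, by simp, Eqn.refl x⟩
  set k := lst (suc x) (fun z => Eqn z x)
  refine ⟨k, ⟨ord_mem (ord_suc hx) h.1.1, fun y hy f hf => ?_⟩, ?_, h.1.2⟩
  · exact h.2 y hy (Eqn.trans ⟨f, hf⟩ h.1.2)
  · rcases mem_suc.1 h.1.1 with h | h
    · exact Or.inr h
    · exact Or.inl h

theorem inj_mu {mu l k : M} (hl : IsSuccCard mu l) (hk : k ∈ l) : ∃ f, IsInj f k mu := by
  obtain ⟨hmu, hlc, hml, hsucc⟩ := hl
  obtain ⟨c, hc, hck, he⟩ := exists_card (ord_mem hlc.1 hk)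
  have hcl : c ∈ l := by
    rcases hck with h | h
    · exact ord_tr hlc.1 hk h
    · exact h ▸ hk
  have hsub : c ⊆ mu := by
    rcases hsucc c hc hcl with h | h
    · exact hmu.1.1 c h
    · exact h ▸ Sub.refl _
  obtain ⟨f, hf⟩ := he.symm
  exact ⟨f, ⟨hf.1.1.1, fun x hx => hsub _ (hf.1.1.2 x hx)⟩, hf.1.2⟩

theorem ord_om : IsOrd (om : M) :=
  ⟨fun _ hy _ hz => om_trans hy hz, fun _ hy _ hz _ hw => om_trans' hy hz hw⟩

theorem not_kfin_om : ¬ Kfin (om : M) := by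
  intro h
  obtain ⟨n, hn, hs⟩ := kfin_bdd h (Sub.refl _)
  exact not_mem_self n (hs n hn)

theorem card_om : IsCard (om : M) :=
  ⟨ord_om, fun n hn f hf => not_kfin_om (kfin_of_eqn ⟨f, hf⟩ (kfin_nat n hn))⟩

open Classical in
theorem eqn_suc {x : M} (hx : (om : M) ⊆ x) : Eqn (suc x) x := by
  have hxo : x ∉ (om : M) := fun h => not_mem_self x (hx x h)
  have i1 : F1 (fun z : M => if z = x then emp else if z ∈ (om : M) then suc z else z) :=
    inferInstance
  have e0 : ∀ z, z = x → (if z = x then emp else if z ∈ (om : M) then suc z else z) = emp :=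
    fun z h => if_pos h
  have e1 : ∀ z, z ∈ (om : M) →
      (if z = x then emp else if z ∈ (om : M) then suc z else z) = suc z := fun z h => by
    rw [if_neg (fun e : z = x => hxo (e ▸ h)), if_pos h]
  have e2 : ∀ z, z ∉ (om : M) → z ≠ x →
      (if z = x then emp else if z ∈ (om : M) then suc z else z) = z := fun z h h' => by
    rw [if_neg h', if_neg h]
  have hcase : ∀ z, z ∈ suc x → z = x ∨ z ∈ (om : M) ∨ (z ∉ (om : M) ∧ z ≠ x ∧ z ∈ x) := by
    intro z hz
    by_cases h1 : z = x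
    · exact Or.inl h1
    · by_cases h2 : z ∈ (om : M)
      · exact Or.inr (Or.inl h2)
      · exact Or.inr (Or.inr ⟨h2, h1, (mem_suc.1 hz).resolve_left h1⟩)
  have hsuc0 : ∀ z : M, suc z ≠ emp := fun z h => not_mem_emp z (h ▸ mem_suc.2 (Or.inl rfl))
  refine ⟨lam (suc x) fun z => if z = x then emp else if z ∈ (om : M) then suc z else z,
    ⟨lam_fn fun z hz => ?_, ?_⟩, ?_⟩
  · rcases hcase z hz with h | h | ⟨h, h', h''⟩
    · rw [e0 z h]; exact hx _ emp_mem_om
    · rw [e1 z h]; exact hx _ (suc_mem_om h)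
    · rw [e2 z h h']; exact h''
  · intro z hz w hw h
    rw [ap_lam hz, ap_lam hw] at h
    rcases hcase z hz with h1 | h1 | ⟨h1, h1', h1''⟩ <;>
      rcases hcase w hw with h2 | h2 | ⟨h2, h2', h2''⟩
    · rw [h1, h2]
    · rw [e0 z h1, e1 w h2] at h
      exact absurd h.symm (hsuc0 w)
    · rw [e0 z h1, e2 w h2 h2'] at h
      exact absurd (h ▸ emp_mem_om) h2
    · rw [e1 z h1, e0 w h2] at h
      exact absurd h (hsuc0 z)
    · rw [e1 z h1, e1 w h2] at h
      have a1 : z ∈ suc w := by rw [← h]; simp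
      have a2 : w ∈ suc z := by rw [h]; simp
      rcases mem_suc.1 a1 with a1 | a1
      · exact a1
      · rcases mem_suc.1 a2 with a2 | a2
        · exact a2.symm
        · exact absurd a1 (not_mem_cycle a2)
    · rw [e1 z h1, e2 w h2 h2'] at h
      exact absurd (h ▸ suc_mem_om h1) h2
    · rw [e2 z h1 h1', e0 w h2] at h
      exact absurd (h ▸ emp_mem_om) h1
    · rw [e2 z h1 h1', e1 w h2] at h
      exact absurd (h ▸ suc_mem_om h2) h1
    · rw [e2 z h1 h1', e2 w h2 h2'] at h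
      exact h
  · intro y hy
    by_cases h1 : y ∈ (om : M)
    · rcases om_cases h1 with h2 | ⟨m, hm, h2⟩
      · refine ⟨x, by simp, ?_⟩
        rw [ap_lam (by simp), e0 x rfl, h2]
      · have hm' : m ∈ suc x := mem_suc.2 (Or.inr (hx m hm))
        refine ⟨m, hm', ?_⟩
        rw [ap_lam hm', e1 m hm, h2]
    · have hy' : y ∈ suc x := mem_suc.2 (Or.inr hy)
      refine ⟨y, hy', ?_⟩
      rw [ap_lam hy', e2 y h1 (fun e => not_mem_self x (e ▸ hy))]

theorem card_limit {k : M} (hk : IsCard k) (hom : (om : M) ⊆ k) {x : M} (hx : x ∈ k) :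
    ∃ y, y ∈ k ∧ x ∈ y := by
  by_contra hc
  push Not at hc
  have hxo := ord_mem hk.1 hx
  have h1 : suc x = k := by
    apply ext
    intro z
    rw [mem_suc]
    constructor
    · rintro (rfl | h)
      · exact hx
      · exact ord_tr hk.1 hx h
    · intro hz
      rcases ord_tri z (ord_mem hk.1 hz) x hxo with h | h | h
      · exact Or.inr h
      · exact Or.inl h
      · exact absurd h (hc z hz)
  have h2 : x ∉ (om : M) := fun h => hc (suc x) (hom _ (suc_mem_om h)) (by simp)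
  have h3 : (om : M) ⊆ x := by
    rcases ord_tri x hxo om ord_om with h | h | h
    · exact absurd h h2
    · exact h ▸ Sub.refl _
    · exact hxo.1 _ h
  obtain ⟨f, hf⟩ := (eqn_suc h3).symm
  rw [h1] at hf
  exact hk.2 x hx f hf

theorem om_mem_of_singular {mu : M} (h : IsSingular mu) : (om : M) ∈ mu := by
  obtain ⟨hc, hom, t, ht, f, hf, hub⟩ := h
  rcases ord_tri om ord_om mu hc.1 with h | h | h
  · exact h
  · exfalso
    subst h
    have h1 : Kfin (img t fun x => ap f x) := kfin_img (kfin_nat t ht)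
    have h2 : (img t fun x => ap f x) ⊆ om := by
      intro z hz
      obtain ⟨x, hx, rfl⟩ := mem_img.1 hz
      exact hf.2 x hx
    obtain ⟨n, hn, hs⟩ := kfin_bdd h1 h2
    obtain ⟨y, hy, hny⟩ := hub n hn
    exact not_mem_cycle hny (hs _ (mem_img.2 ⟨y, hy, rfl⟩))
  · exact absurd (hom _ h) (not_mem_self mu)

end Pool.Agent.helper28.NSI
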