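import Pool.Agent.helper43.NS.Defs
import Pool.Agent.helper73.NS.AB
import Pool.Agent.helper71.NO.A5

open Finset

namespace Pool.Agent.helper28.NS

open Pool.Agent.helper43.NS Pool.Agent.helper43.NO Pool.Agent.helper71.NO
open Pool.Agent.helper73.NS

/-- pointwise bound -/
lemma point (y t lo hi : ℝ) (hy : 1 < y) (ht : 0 < t) (k : ℕ) :
    y ^ k ≤ (if lo ≤ (k : ℝ) ∧ (k : ℝ) ≤ hi then y ^ hi else 0)
      + (1 + t) ^ (-hi) * (y * (1 + t)) ^ k
      + (1 / (1 + t)) ^ (-lo) * (y * (1 / (1 + t))) ^ k := by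
  have hy0 : 0 < y := by linarith
  have ht0 : 0 < 1 + t := by linarith
  have e1 : 0 ≤ (1 + t) ^ (-hi) * (y * (1 + t)) ^ k := by positivity
  have e2 : 0 ≤ (1 / (1 + t)) ^ (-lo) * (y * (1 / (1 + t))) ^ k := by positivity
  by_cases h : lo ≤ (k : ℝ) ∧ (k : ℝ) ≤ hi
  · rw [if_pos h]
    have h1 : y ^ k ≤ y ^ hi := by
      rw [← Real.rpow_natCast]
      exact Real.rpow_le_rpow_of_exponent_le hy.le h.2
    linarith
  · rw [if_neg h]
    rw [not_and_or, not_le, not_le] at h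
    rcases h with h | h
    · have h1 : (1 : ℝ) ≤ (1 / (1 + t)) ^ (-lo) * (1 / (1 + t)) ^ k := by
        rw [← Real.rpow_natCast, ← Real.rpow_add (by positivity)]
        apply Real.one_le_rpow_of_pos_of_le_one_of_nonpos (by positivity)
        · rw [div_le_one ht0]; linarith
        · linarith
      have h2 : (1 / (1 + t)) ^ (-lo) * (y * (1 / (1 + t))) ^ k =
          y ^ k * ((1 / (1 + t)) ^ (-lo) * (1 / (1 + t)) ^ k) := by
        rw [mul_pow]; ring
      have h3 : y ^ k * 1 ≤ y ^ k * ((1 / (1 + t)) ^ (-lo) * (1 / (1 + t)) ^ k) := by gcongr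
      rw [h2]
      linarith
    · have h1 : (1 : ℝ) ≤ (1 + t) ^ (-hi) * (1 + t) ^ k := by
        rw [← Real.rpow_natCast, ← Real.rpow_add ht0]
        exact Real.one_le_rpow (by linarith) (by linarith)
      have h2 : (1 + t) ^ (-hi) * (y * (1 + t)) ^ k =
          y ^ k * ((1 + t) ^ (-hi) * (1 + t) ^ k) := by
        rw [mul_pow]; ring
      have h3 : y ^ k * 1 ≤ y ^ k * ((1 + t) ^ (-hi) * (1 + t) ^ k) := by gcongr
      rw [h2]
      linarith

/-- the average bound -/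
lemma avg_bound (P : Finset ℕ) (hP : ∀ p ∈ P, p.Prime) (y t lo hi : ℝ) (hy : 1 < y) (ht : 0 < t) :
    ((∏ p ∈ P, p : ℕ) : ℝ) * pr P (y - 1) ≤
      (((Icc 1 (∏ p ∈ P, p)).filter (fun m => lo ≤ (om P m : ℝ) ∧ (om P m : ℝ) ≤ hi)).card : ℝ) *
          y ^ hi
      + (1 + t) ^ (-hi) * (((∏ p ∈ P, p : ℕ) : ℝ) * pr P (y * (1 + t) - 1))
      + (1 / (1 + t)) ^ (-lo) * (((∏ p ∈ P, p : ℕ) : ℝ) * pr P (y * (1 / (1 + t)) - 1)) := by
  rw [← avg_pow P hP y, ← avg_pow P hP (y * (1 + t)), ← avg_pow P hP (y * (1 / (1 + t)))]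
  rw [Finset.mul_sum, Finset.mul_sum]
  have h1 : (((Icc 1 (∏ p ∈ P, p)).filter
      (fun m => lo ≤ (om P m : ℝ) ∧ (om P m : ℝ) ≤ hi)).card : ℝ) * y ^ hi =
      ∑ m ∈ Icc 1 (∏ p ∈ P, p),
        (if lo ≤ (om P m : ℝ) ∧ (om P m : ℝ) ≤ hi then y ^ hi else 0) := by
    rw [← Finset.sum_filter, Finset.sum_const, nsmul_eq_mul]
  rw [h1, ← Finset.sum_add_distrib, ← Finset.sum_add_distrib]
  exact Finset.sum_le_sum (fun m _ => point y t lo hi hy ht (om P m))

/-- pigeonhole over the levels of the window -/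
lemma pigeon (P : Finset ℕ) (hP : ∀ p ∈ P, p.Prime) (lo hi : ℝ) (hhi : 0 ≤ hi)
    (hpos : 0 < (((Icc 1 (∏ p ∈ P, p)).filter
      (fun m => lo ≤ (om P m : ℝ) ∧ (om P m : ℝ) ≤ hi)).card : ℝ)) :
    ∃ a : ℕ, lo ≤ a ∧ (a : ℝ) ≤ hi ∧
      (((Icc 1 (∏ p ∈ P, p)).filter
        (fun m => lo ≤ (om P m : ℝ) ∧ (om P m : ℝ) ≤ hi)).card : ℝ) ≤
        (hi + 1) * (((∏ p ∈ P, p : ℕ) : ℝ) * frac P a) := by
  classical
  set N : ℕ := ∏ p ∈ P, p with hN
  have hNpos : 0 < N := Finset.prod_pos (fun p hp => (hP p hp).pos)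
  have hNr : (0 : ℝ) < N := by exact_mod_cast hNpos
  set F := (Icc 1 N).filter (fun m => lo ≤ (om P m : ℝ) ∧ (om P m : ℝ) ≤ hi) with hF
  set S := (Finset.range (⌊hi⌋₊ + 1)).filter (fun a : ℕ => lo ≤ (a : ℝ)) with hS
  have hmap : ∀ m ∈ F, om P m ∈ S := by
    intro m hm
    rw [hF, mem_filter] at hm
    rw [hS, mem_filter, mem_range]
    refine ⟨?_, hm.2.1⟩
    have := Nat.le_floor hm.2.2
    omega
  have hcard : F.card = ∑ a ∈ S, (F.filter (fun m => om P m = a)).card :=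
    Finset.card_eq_sum_card_fiberwise hmap
  have hfr : ∀ a : ℕ, (N : ℝ) * frac P a =
      (((Icc 1 N).filter (fun m => om P m = a)).card : ℝ) := by
    intro a
    unfold frac
    rw [← hN]
    field_simp
  have hne : S.Nonempty := by
    have h1 : 0 < F.card := by exact_mod_cast hpos
    obtain ⟨m, hm⟩ := Finset.card_pos.1 h1
    exact ⟨_, hmap m hm⟩
  obtain ⟨a, haS, hmax⟩ := Finset.exists_max_image S (fun a => frac P a) hne
  have haS' := haS
  rw [hS, mem_filter, mem_range] at haS'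
  have hahi : (a : ℝ) ≤ hi := by
    have h1 : a ≤ ⌊hi⌋₊ := by omega
    exact (Nat.cast_le.2 h1).trans (Nat.floor_le hhi)
  refine ⟨a, haS'.2, hahi, ?_⟩
  have hfa : 0 ≤ (N : ℝ) * frac P a := by rw [hfr]; positivity
  have hScard : (S.card : ℝ) ≤ hi + 1 := by
    have h1 : S.card ≤ ⌊hi⌋₊ + 1 := by
      have := Finset.card_filter_le (Finset.range (⌊hi⌋₊ + 1)) (fun a : ℕ => lo ≤ (a : ℝ))
      rwa [Finset.card_range] at this
    have h2 : (S.card : ℝ) ≤ (⌊hi⌋₊ : ℝ) + 1 := by exact_mod_cast h1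
    have h3 := Nat.floor_le hhi
    linarith
  calc (F.card : ℝ) = ∑ b ∈ S, ((F.filter (fun m => om P m = b)).card : ℝ) := by
        rw [hcard]; push_cast; rfl
    _ ≤ ∑ b ∈ S, (N : ℝ) * frac P b := by
        refine Finset.sum_le_sum (fun b _ => ?_)
        rw [hfr]
        have : (F.filter (fun m => om P m = b)).card ≤
            ((Icc 1 N).filter (fun m => om P m = b)).card :=
          Finset.card_le_card (Finset.filter_subset_filter _ (Finset.filter_subset _ _))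
        exact_mod_cast this
    _ ≤ ∑ b ∈ S, (N : ℝ) * frac P a := by
        refine Finset.sum_le_sum (fun b hb => ?_)
        exact mul_le_mul_of_nonneg_left (hmax b hb) hNr.le
    _ = (S.card : ℝ) * ((N : ℝ) * frac P a) := by
        rw [Finset.sum_const, nsmul_eq_mul]
    _ ≤ (hi + 1) * ((N : ℝ) * frac P a) := by gcongr

/-- a good level `a`. -/
theorem window (P : Finset ℕ) (y κ η h t c Λ C0 : ℝ) (hP : ∀ p ∈ P, p.Prime) (hy : 1 < y)
    (hη : 0 < η) (hη2 : η < 1 / 2) (ht : 0 < t) (ht1 : t ≤ 1) (hyt : 1 ≤ y / (1 + t))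
    (hC0 : 0 ≤ C0) (hΛ : 0 ≤ Λ) (hh : 0 < h)
    (hs1 : (1 - 2 * η) * Λ ≤ ∑ p ∈ P, 1 / (p : ℝ)) (hs2 : ∑ p ∈ P, 1 / (p : ℝ) ≤ Λ + C0)
    (hE1 : (y + h) * Real.log y - (y - 1) * (1 - 2 * η) - κ ≤ -c)
    (hE3 : y * t - (y + h) * Real.log (1 + t) ≤ -c)
    (hE4 : (y * (1 / (1 + t)) - y) * (1 - 2 * η) + (y - h) * Real.log (1 + t) ≤ -c)
    (hbig : (Real.exp (y * C0) + 1) * Real.exp (-(c * Λ)) ≤ Real.exp (-(y - 1) ^ 2) / 2) :
    ∃ a : ℕ, (y - h) * Λ ≤ a ∧ (a : ℝ) ≤ (y + h) * Λ ∧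
      Real.exp (-(y - 1) ^ 2) / 2 * Real.exp (-((κ - c) * Λ)) ≤
        ((y + h) * Λ + 1) * frac P a := by
  have _ := hη
  have _ := hη2
  have hv : 0 < y - 1 := by linarith
  have hy0 : 0 < y := by linarith
  have hNpos : 0 < ∏ p ∈ P, p := Finset.prod_pos (fun p hp => (hP p hp).pos)
  have hNr : (0 : ℝ) < ((∏ p ∈ P, p : ℕ) : ℝ) := by exact_mod_cast hNpos
  have hhi : 0 ≤ (y + h) * Λ := by positivity
  have hmain := avg_bound P hP y t ((y - h) * Λ) ((y + h) * Λ) hy ht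
  set s := ∑ p ∈ P, 1 / (p : ℝ) with hs
  set v := y - 1 with hvdef
  have hyv : 1 + v = y := by rw [hvdef]; ring
  set N : ℝ := ((∏ p ∈ P, p : ℕ) : ℝ) with hNdef
  have hge := pr_ge P v hP hv.le
  rw [← hs] at hge
  have hT3 : (1 + t) ^ (-((y + h) * Λ)) * pr P (y * (1 + t) - 1) ≤
      Real.exp (v * s) * (Real.exp (y * C0) * Real.exp (-(c * Λ))) := by
    have h1 : (1 + t) ^ (-((y + h) * Λ)) = Real.exp (-((y + h) * Λ) * Real.log (1 + t)) := by
      rw [Real.rpow_def_of_pos (by linarith)]; ring_nf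
    have h2 : pr P (y * (1 + t) - 1) ≤ Real.exp ((y * (1 + t) - 1) * s) := by
      apply pr_le
      nlinarith
    rw [h1]
    calc Real.exp (-((y + h) * Λ) * Real.log (1 + t)) * pr P (y * (1 + t) - 1)
        ≤ Real.exp (-((y + h) * Λ) * Real.log (1 + t)) * Real.exp ((y * (1 + t) - 1) * s) := by
          gcongr
      _ = Real.exp (-((y + h) * Λ) * Real.log (1 + t) + (y * (1 + t) - 1) * s) := by
          rw [Real.exp_add]
      _ ≤ Real.exp (v * s + (y * C0 + -(c * Λ))) := by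
          rw [Real.exp_le_exp]
          have h3 : (y * t - (y + h) * Real.log (1 + t)) * Λ ≤ -c * Λ := by gcongr
          have h4 : y * t * s ≤ y * t * (Λ + C0) := by gcongr
          have h5 : y * t * C0 ≤ y * 1 * C0 := by gcongr
          have h6 : v = y - 1 := hvdef
          rw [h6]
          nlinarith
      _ = _ := by rw [Real.exp_add, Real.exp_add]
  have hT4 : (1 / (1 + t)) ^ (-((y - h) * Λ)) * pr P (y * (1 / (1 + t)) - 1) ≤
      Real.exp (v * s) * Real.exp (-(c * Λ)) := by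
    have h1 : (1 / (1 + t)) ^ (-((y - h) * Λ)) = Real.exp ((y - h) * Λ * Real.log (1 + t)) := by
      rw [Real.rpow_def_of_pos (by positivity), one_div, Real.log_inv]; ring_nf
    have h2 : pr P (y * (1 / (1 + t)) - 1) ≤ Real.exp ((y * (1 / (1 + t)) - 1) * s) := by
      apply pr_le
      rw [mul_one_div]; linarith
    rw [h1]
    calc Real.exp ((y - h) * Λ * Real.log (1 + t)) * pr P (y * (1 / (1 + t)) - 1)
        ≤ Real.exp ((y - h) * Λ * Real.log (1 + t)) *
          Real.exp ((y * (1 / (1 + t)) - 1) * s) := by gcongr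
      _ = Real.exp ((y - h) * Λ * Real.log (1 + t) + (y * (1 / (1 + t)) - 1) * s) := by
          rw [Real.exp_add]
      _ ≤ Real.exp (v * s + -(c * Λ)) := by
          rw [Real.exp_le_exp]
          have h3 : ((y * (1 / (1 + t)) - y) * (1 - 2 * η) + (y - h) * Real.log (1 + t)) * Λ ≤
            -c * Λ := by gcongr
          have h4 : y * (1 / (1 + t)) - y ≤ 0 := by
            have : y * (1 / (1 + t)) ≤ y * 1 := by
              gcongr
              rw [div_le_one (by linarith)]; linarith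
            linarith
          have h5 : (y * (1 / (1 + t)) - y) * s ≤ (y * (1 / (1 + t)) - y) * ((1 - 2 * η) * Λ) :=
            mul_le_mul_of_nonpos_left hs1 h4
          have h6 : v = y - 1 := hvdef
          rw [h6]
          nlinarith
      _ = _ := by rw [Real.exp_add]
  set W : ℝ := (((Icc 1 (∏ p ∈ P, p)).filter
      (fun m => (y - h) * Λ ≤ (om P m : ℝ) ∧ (om P m : ℝ) ≤ (y + h) * Λ)).card : ℝ) with hW
  have hpr0 : 0 < y ^ ((y + h) * Λ) := by positivity
  have key : N * (Real.exp (v * s) * (Real.exp (-v ^ 2) / 2)) ≤ W * y ^ ((y + h) * Λ) := by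
    have h1 : N * Real.exp (v * s - v ^ 2) ≤ N * pr P v := by gcongr
    have h2 : (1 + t) ^ (-((y + h) * Λ)) * (N * pr P (y * (1 + t) - 1)) ≤
        N * (Real.exp (v * s) * (Real.exp (y * C0) * Real.exp (-(c * Λ)))) := by
      calc (1 + t) ^ (-((y + h) * Λ)) * (N * pr P (y * (1 + t) - 1))
          = N * ((1 + t) ^ (-((y + h) * Λ)) * pr P (y * (1 + t) - 1)) := by ring
        _ ≤ _ := by gcongr
    have h3 : (1 / (1 + t)) ^ (-((y - h) * Λ)) * (N * pr P (y * (1 / (1 + t)) - 1)) ≤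
        N * (Real.exp (v * s) * Real.exp (-(c * Λ))) := by
      calc (1 / (1 + t)) ^ (-((y - h) * Λ)) * (N * pr P (y * (1 / (1 + t)) - 1))
          = N * ((1 / (1 + t)) ^ (-((y - h) * Λ)) * pr P (y * (1 / (1 + t)) - 1)) := by ring
        _ ≤ _ := by gcongr
    have h4 : N * (Real.exp (v * s) * ((Real.exp (y * C0) + 1) * Real.exp (-(c * Λ)))) ≤
        N * (Real.exp (v * s) * (Real.exp (-v ^ 2) / 2)) := by gcongr
    have h5 : Real.exp (v * s - v ^ 2) = Real.exp (v * s) * Real.exp (-v ^ 2) := by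
      rw [← Real.exp_add]; ring_nf
    rw [h5] at h1
    nlinarith [hmain, h1, h2, h3, h4]
  have hWpos : 0 < W := by
    by_contra hcon
    push Not at hcon
    have h1 : 0 < N * (Real.exp (v * s) * (Real.exp (-v ^ 2) / 2)) := by positivity
    have h2 : W * y ^ ((y + h) * Λ) ≤ 0 := mul_nonpos_of_nonpos_of_nonneg hcon hpr0.le
    linarith
  obtain ⟨a, ha1, ha2, ha3⟩ := pigeon P hP ((y - h) * Λ) ((y + h) * Λ) hhi hWpos
  refine ⟨a, ha1, ha2, ?_⟩
  rw [← hW, ← hNdef] at ha3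
  -- combine
  have h1 : N * (Real.exp (v * s) * (Real.exp (-v ^ 2) / 2)) ≤
      ((y + h) * Λ + 1) * (N * frac P a) * y ^ ((y + h) * Λ) :=
    key.trans (by gcongr)
  have h2 : Real.exp (v * s) * (Real.exp (-v ^ 2) / 2) ≤
      ((y + h) * Λ + 1) * frac P a * y ^ ((y + h) * Λ) := by
    have h3 : N * (Real.exp (v * s) * (Real.exp (-v ^ 2) / 2)) ≤
        N * (((y + h) * Λ + 1) * frac P a * y ^ ((y + h) * Λ)) := by
      refine h1.trans (le_of_eq ?_)
      ring
    exact le_of_mul_le_mul_left h3 hNr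
  have h4 : y ^ ((y + h) * Λ) = Real.exp ((y + h) * Λ * Real.log y) := by
    rw [Real.rpow_def_of_pos hy0]; ring_nf
  have h5 : Real.exp (-((κ - c) * Λ)) * Real.exp ((y + h) * Λ * Real.log y) ≤
      Real.exp (v * s) := by
    rw [← Real.exp_add, Real.exp_le_exp]
    have h6 : ((y + h) * Real.log y - v * (1 - 2 * η) - κ) * Λ ≤ -c * Λ := by gcongr
    have h7 : v * ((1 - 2 * η) * Λ) ≤ v * s := by gcongr
    nlinarith
  rw [h4] at h2
  have h6 : Real.exp (-v ^ 2) / 2 * Real.exp (-((κ - c) * Λ)) *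
      Real.exp ((y + h) * Λ * Real.log y) ≤
      ((y + h) * Λ + 1) * frac P a * Real.exp ((y + h) * Λ * Real.log y) := by
    refine le_trans ?_ h2
    calc Real.exp (-v ^ 2) / 2 * Real.exp (-((κ - c) * Λ)) *
        Real.exp ((y + h) * Λ * Real.log y)
        = (Real.exp (-((κ - c) * Λ)) * Real.exp ((y + h) * Λ * Real.log y)) *
          (Real.exp (-v ^ 2) / 2) := by ring
      _ ≤ _ := by gcongr
  exact le_of_mul_le_mul_right h6 (Real.exp_pos _)

end Pool.Agent.helper28.NS
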